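import Pool.Agent.H27.AP.Targets

/-!
Board apr_modules, row CQ: the coefficients of the expansion of the sieve weights.
-/

set_option autoImplicit false

open Finset Real
open scoped Pointwise

namespace Pool.Agent.H14.APR

open Pool.Agent.H27.AP

/-- The number of divisors is submultiplicative. -/
theorem card_divisors_mul_le (e f : ℕ) :
    (e * f).divisors.card ≤ e.divisors.card * f.divisors.card := by
  rw [Nat.divisors_mul]
  exact Finset.card_mul_le

/-- Moments of the divisor function with the harmonic weight. -/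
noncomputable def HH (D j : ℕ) : ℝ := ∑ n ∈ Icc 1 D, (n.divisors.card : ℝ) ^ j / n

theorem HH_nonneg (D j : ℕ) : 0 ≤ HH D j := Finset.sum_nonneg fun _ _ => by positivity

theorem HH_succ (D j : ℕ) : HH D (j + 1) ≤ HH D j ^ 2 := by
  set F : ℕ × ℕ → ℝ := fun x =>
    ((x.1.divisors.card : ℝ) ^ j / x.1) * ((x.2.divisors.card : ℝ) ^ j / x.2) with hF
  have hF0 : ∀ x, 0 ≤ F x := fun x => by rw [hF]; positivity
  have h1 : ∀ n ∈ Icc 1 D, (n.divisors.card : ℝ) ^ (j + 1) / n ≤
      ∑ x ∈ n.divisorsAntidiagonal, F x := by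
    intro n hn
    have hn0 : 0 < n := (Finset.mem_Icc.1 hn).1
    have hcard : (n.divisors.card : ℝ) = ∑ _x ∈ n.divisorsAntidiagonal, (1 : ℝ) := by
      rw [Nat.sum_divisorsAntidiagonal (fun _ _ => (1 : ℝ))]
      simp
    calc (n.divisors.card : ℝ) ^ (j + 1) / n
        = ∑ _x ∈ n.divisorsAntidiagonal, (n.divisors.card : ℝ) ^ j / n := by
          rw [pow_succ]
          conv_lhs => rw [hcard]
          rw [← hcard, Finset.sum_const, nsmul_eq_mul]
          have h2 : (n.divisorsAntidiagonal.card : ℝ) = (n.divisors.card : ℝ) := by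
            rw [hcard]; simp
          rw [h2]; ring
      _ ≤ ∑ x ∈ n.divisorsAntidiagonal, F x := by
          refine Finset.sum_le_sum fun x hx => ?_
          have hx1 := (Nat.mem_divisorsAntidiagonal.1 hx).1
          have hx0 : 0 < x.1 * x.2 := by rw [hx1]; exact hn0
          have ha : (0 : ℝ) < x.1 := by exact_mod_cast Nat.pos_of_mul_pos_right hx0
          have hb : (0 : ℝ) < x.2 := by exact_mod_cast Nat.pos_of_mul_pos_left hx0
          have hnx : (n : ℝ) = x.1 * x.2 := by rw [← hx1]; push_cast; ring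
          have hd : (n.divisors.card : ℝ) ≤ x.1.divisors.card * x.2.divisors.card := by
            rw [← hx1]
            exact_mod_cast card_divisors_mul_le x.1 x.2
          rw [hF]
          simp only
          rw [div_mul_div_comm, ← mul_pow, hnx]
          gcongr
  have h2 : ∑ n ∈ Icc 1 D, ∑ x ∈ n.divisorsAntidiagonal, F x ≤
      ∑ x ∈ Icc 1 D ×ˢ Icc 1 D, F x := by
    rw [← Finset.sum_biUnion]
    · refine Finset.sum_le_sum_of_subset_of_nonneg ?_ fun x _ _ => hF0 x
      intro x hx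
      rw [Finset.mem_biUnion] at hx
      obtain ⟨n, hn, hx⟩ := hx
      rw [Finset.mem_Icc] at hn
      have hx1 := (Nat.mem_divisorsAntidiagonal.1 hx).1
      have hx0 : 0 < x.1 * x.2 := by omega
      have ha : 0 < x.1 := Nat.pos_of_mul_pos_right hx0
      have hb : 0 < x.2 := Nat.pos_of_mul_pos_left hx0
      have h3 : x.1 ≤ x.1 * x.2 := Nat.le_mul_of_pos_right _ hb
      have h4 : x.2 ≤ x.1 * x.2 := Nat.le_mul_of_pos_left _ ha
      rw [Finset.mem_product, Finset.mem_Icc, Finset.mem_Icc]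
      omega
    · intro n _ m _ hnm
      rw [Function.onFun, Finset.disjoint_left]
      intro x hx hx'
      exact hnm ((Nat.mem_divisorsAntidiagonal.1 hx).1.symm.trans
        (Nat.mem_divisorsAntidiagonal.1 hx').1)
  calc HH D (j + 1) ≤ ∑ n ∈ Icc 1 D, ∑ x ∈ n.divisorsAntidiagonal, F x :=
        Finset.sum_le_sum h1
    _ ≤ ∑ x ∈ Icc 1 D ×ˢ Icc 1 D, F x := h2
    _ = HH D j ^ 2 := by
        rw [Finset.sum_product, pow_two, HH, Finset.sum_mul_sum]

theorem HH_le (D : ℕ) (j : ℕ) : HH D j ≤ (1 + Real.log D) ^ (2 ^ j) := by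
  induction j with
  | zero =>
    rw [pow_zero, pow_one]
    have h := harmonic_le_one_add_log D
    rw [harmonic_eq_sum_Icc] at h
    push_cast at h
    unfold HH
    simpa using h
  | succ j ih =>
    calc HH D (j + 1) ≤ HH D j ^ 2 := HH_succ D j
      _ ≤ ((1 + Real.log D) ^ (2 ^ j)) ^ 2 := pow_le_pow_left₀ (HH_nonneg D j) ih 2
      _ = (1 + Real.log D) ^ (2 ^ (j + 1)) := by rw [← pow_mul, ← pow_succ]

/-- Pointwise bound for the coefficients. -/
theorem abs_cq_le (w : ℕ → ℝ) (D q : ℕ) (hq : 1 ≤ q)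
    (hw : ∀ m, |w m| ≤ (m.divisors.card : ℝ) ^ 2) :
    |cq w D q| ≤ (q.divisors.card : ℝ) ^ 2 / q * HH D 2 := by
  have hq0 : (0 : ℝ) < q := by exact_mod_cast hq
  set G : ℕ → ℝ := fun m => (m.divisors.card : ℝ) ^ 2 / m with hG
  have hG0 : ∀ m, 0 ≤ G m := fun m => by rw [hG]; positivity
  have h1 : |cq w D q| ≤ ∑ m ∈ (Icc 1 D).filter (fun m => q ∣ m), G m := by
    refine (Finset.abs_sum_le_sum_abs _ _).trans (Finset.sum_le_sum fun m _ => ?_)
    rw [abs_div, Nat.abs_cast]
    exact div_le_div_of_nonneg_right (hw m) (Nat.cast_nonneg _)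
  have hsub : (Icc 1 D).filter (fun m => q ∣ m) ⊆ (Icc 1 D).image (fun m => q * m) := by
    intro m hm
    rw [Finset.mem_filter, Finset.mem_Icc] at hm
    obtain ⟨⟨hm1, hm2⟩, c, rfl⟩ := hm
    rw [Finset.mem_image]
    have hc : 0 < c := by
      rcases Nat.eq_zero_or_pos c with h | h
      · subst h
        simp at hm1
      · exact h
    have h3 : c ≤ q * c := Nat.le_mul_of_pos_left _ hq
    exact ⟨c, Finset.mem_Icc.2 ⟨hc, by omega⟩, rfl⟩
  have h2 : ∑ m ∈ (Icc 1 D).filter (fun m => q ∣ m), G m ≤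
      ∑ m ∈ (Icc 1 D).image (fun m => q * m), G m :=
    Finset.sum_le_sum_of_subset_of_nonneg hsub fun m _ _ => hG0 m
  rw [Finset.sum_image (fun a _ b _ hab => Nat.eq_of_mul_eq_mul_left hq hab)] at h2
  refine h1.trans (h2.trans ?_)
  rw [HH, Finset.mul_sum]
  refine Finset.sum_le_sum fun m hm => ?_
  have hm0 : (0 : ℝ) < m := by exact_mod_cast (Finset.mem_Icc.1 hm).1
  have hd : ((q * m).divisors.card : ℝ) ≤ q.divisors.card * m.divisors.card := by
    exact_mod_cast card_divisors_mul_le q m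
  rw [hG]
  simp only
  rw [div_mul_div_comm, ← mul_pow]
  push_cast
  gcongr

theorem pf_CQ : T_CQ := by
  intro w D hD hw
  have hL0 : 0 ≤ 1 + Real.log D := by
    have := Real.log_natCast_nonneg D
    linarith
  have hH2 := HH_le D 2
  have hH4 := HH_le D 4
  norm_num at hH2 hH4
  have h1 : ∀ q ∈ Icc 1 D, cq w D q ^ 2 * q ≤
      (1 + Real.log D) ^ 8 * ((q.divisors.card : ℝ) ^ 4 / q) := by
    intro q hq
    have hq1 := (Finset.mem_Icc.1 hq).1
    have hq0 : (0 : ℝ) < q := by exact_mod_cast hq1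
    have h2 := abs_cq_le w D q hq1 hw
    have h3 : |cq w D q| ≤ (q.divisors.card : ℝ) ^ 2 / q * (1 + Real.log D) ^ 4 :=
      h2.trans (mul_le_mul_of_nonneg_left hH2 (by positivity))
    have h4 : cq w D q ^ 2 ≤ ((q.divisors.card : ℝ) ^ 2 / q * (1 + Real.log D) ^ 4) ^ 2 := by
      rw [← sq_abs]
      exact pow_le_pow_left₀ (abs_nonneg _) h3 2
    calc cq w D q ^ 2 * q ≤ ((q.divisors.card : ℝ) ^ 2 / q * (1 + Real.log D) ^ 4) ^ 2 * q :=
          mul_le_mul_of_nonneg_right h4 hq0.le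
      _ = (1 + Real.log D) ^ 8 * ((q.divisors.card : ℝ) ^ 4 / q) := by
          field_simp
  calc ∑ q ∈ Icc 1 D, cq w D q ^ 2 * q
      ≤ ∑ q ∈ Icc 1 D, (1 + Real.log D) ^ 8 * ((q.divisors.card : ℝ) ^ 4 / q) :=
        Finset.sum_le_sum h1
    _ = (1 + Real.log D) ^ 8 * HH D 4 := by rw [HH, Finset.mul_sum]
    _ ≤ (1 + Real.log D) ^ 8 * (1 + Real.log D) ^ 16 :=
        mul_le_mul_of_nonneg_left hH4 (by positivity)
    _ = (1 + Real.log D) ^ 24 := by ring

end Pool.Agent.H14.APR
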