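import Pool.Agent.H27.AP.Targets
import Pool.Agent.H27.LS.Additive

/-!
Board apr_modules, row DLS: the dual large sieve for the Farey fractions.
-/

set_option autoImplicit false

open Finset Real

namespace Pool.Agent.H14.APR

open Pool.Agent.H27.AP Pool.Agent.H27.LS

/-- The large sieve for the Farey fractions. -/
theorem farey_ls (Q N : ℕ) (a : ℕ → ℂ) (hQ : 1 ≤ Q) :
    ∑ x ∈ (Icc 2 Q).sigma Rd, ‖trig a N ((x.2 : ℝ) / (x.1 : ℝ))‖ ^ 2 ≤
      ((Q : ℝ) ^ 2 + 4 * π * N) * ∑ k ∈ range N, ‖a k‖ ^ 2 := by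
  have hQ0 : (0 : ℝ) < Q := by exact_mod_cast hQ
  have hmem : ∀ n b : ℕ, n ∈ Icc 2 Q → b ∈ Rd n →
      1 ≤ b ∧ b + 1 ≤ n ∧ b.Coprime n ∧ n ≤ Q ∧ 2 ≤ n := by
    intro n b hn hb
    rw [Finset.mem_Icc] at hn
    rw [Rd, Finset.mem_filter, Finset.mem_range] at hb
    refine ⟨?_, by omega, hb.2, hn.2, hn.1⟩
    rcases Nat.eq_zero_or_pos b with h | h
    · exfalso
      have h1 := hb.2
      rw [h, Nat.coprime_zero_left] at h1
      omega
    · exact h
  calc ∑ x ∈ (Icc 2 Q).sigma Rd, ‖trig a N ((x.2 : ℝ) / (x.1 : ℝ))‖ ^ 2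
      ≤ ((((Q : ℝ) ^ 2)⁻¹)⁻¹ + 4 * Real.pi * N) * ∑ k ∈ range N, ‖a k‖ ^ 2 := by
        refine additive_large_sieve a N (by positivity) _
          (fun x : (_ : ℕ) × ℕ => (x.2 : ℝ) / (x.1 : ℝ)) ?_ ?_
        · rintro ⟨n, b⟩ h
          rw [Finset.mem_sigma] at h
          obtain ⟨hb1, hb2, -, hnQ, hn1⟩ := hmem n b h.1 h.2
          have hq : (2 : ℝ) ≤ (n : ℝ) := by exact_mod_cast hn1
          have hqK : (n : ℝ) ≤ Q := by exact_mod_cast hnQ
          have hb : (1 : ℝ) ≤ b := by exact_mod_cast hb1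
          have hb' : (b : ℝ) + 1 ≤ (n : ℝ) := by exact_mod_cast hb2
          have h1 : ((Q : ℝ) ^ 2)⁻¹ / 2 ≤ 1 / (n : ℝ) := by
            rw [div_eq_mul_inv, ← mul_inv, one_div]
            apply inv_anti₀ (by linarith)
            nlinarith
          constructor
          · refine h1.trans ?_
            show 1 / (n : ℝ) ≤ (b : ℝ) / (n : ℝ)
            gcongr
          · have h2 : (b : ℝ) / (n : ℝ) ≤ 1 - 1 / (n : ℝ) := by
              rw [div_le_iff₀ (by linarith)]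
              have : (1 - 1 / (n : ℝ)) * (n : ℝ) = (n : ℝ) - 1 := by
                have h0 : (n : ℝ) ≠ 0 := by linarith
                rw [sub_mul, one_mul, one_div, inv_mul_cancel₀ h0]
              rw [this]
              linarith
            show (b : ℝ) / (n : ℝ) ≤ 1 - ((Q : ℝ) ^ 2)⁻¹ / 2
            linarith
        · rintro ⟨n, b⟩ h ⟨n', b'⟩ h' hne
          rw [Finset.mem_sigma] at h h'
          obtain ⟨hb1, hb2, hc, hnQ, hn1⟩ := hmem n b h.1 h.2
          obtain ⟨hb1', hb2', hc', hnQ', hn1'⟩ := hmem n' b' h'.1 h'.2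
          show ((Q : ℝ) ^ 2)⁻¹ ≤ |(b : ℝ) / (n : ℝ) - b' / (n' : ℝ)|
          have hq0 : (0 : ℝ) < (n : ℝ) := by
            have : 0 < n := by omega
            exact_mod_cast this
          have hq0' : (0 : ℝ) < (n' : ℝ) := by
            have : 0 < n' := by omega
            exact_mod_cast this
          have hqK : (n : ℝ) ≤ Q := by exact_mod_cast hnQ
          have hqK' : (n' : ℝ) ≤ Q := by exact_mod_cast hnQ'
          have h1 : (b : ℝ) / (n : ℝ) - b' / (n' : ℝ) =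
              (((b : ℤ) * (n' : ℤ) - (b' : ℤ) * (n : ℤ) : ℤ) : ℝ) / ((n : ℝ) * (n' : ℝ)) := by
            rw [div_sub_div _ _ hq0.ne' hq0'.ne']
            push_cast
            ring
          have h2 : ((b : ℤ) * (n' : ℤ) - (b' : ℤ) * (n : ℤ) : ℤ) ≠ 0 := by
            intro h0
            have h3 : b * n' = b' * n := by
              have := sub_eq_zero.1 h0
              exact_mod_cast this
            have h4 : n ∣ n' := by
              have : n ∣ b * n' := ⟨b', by rw [h3]; ring⟩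
              exact (Nat.Coprime.symm hc).dvd_of_dvd_mul_left this
            have h5 : n' ∣ n := by
              have : n' ∣ b' * n := ⟨b, by rw [← h3]; ring⟩
              exact (Nat.Coprime.symm hc').dvd_of_dvd_mul_left this
            have h6 : n = n' := Nat.dvd_antisymm h4 h5
            subst h6
            have h7 : b = b' := Nat.eq_of_mul_eq_mul_right (by omega) h3
            subst h7
            exact hne rfl
          rw [h1, abs_div]
          have h3 : (1 : ℝ) ≤ |(((b : ℤ) * (n' : ℤ) - (b' : ℤ) * (n : ℤ) : ℤ) : ℝ)| := by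
            rw [← Int.cast_abs]
            exact_mod_cast Int.one_le_abs h2
          have h4 : |(n : ℝ) * (n' : ℝ)| = (n : ℝ) * (n' : ℝ) := abs_of_pos (by positivity)
          rw [h4, inv_eq_one_div]
          have h5 : (n : ℝ) * (n' : ℝ) ≤ (Q : ℝ) ^ 2 := by
            rw [pow_two]
            gcongr
          gcongr
    _ = _ := by rw [inv_inv]

theorem pf_DLS : T_DLS := by
  intro Q N c hQ
  set s : Finset ((_ : ℕ) × ℕ) := (Icc 2 Q).sigma Rd with hs
  set S : ℕ → ℂ := fun n => ∑ q ∈ Icc 2 Q, ∑ r ∈ Rd q, c q r * ee r q n with hS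
  set K : ℝ := (Q : ℝ) ^ 2 + 4 * π * N with hK
  have hK0 : 0 ≤ K := by positivity
  set a : ℕ → ℂ := fun n => (starRingEnd ℂ) (S n) with ha
  have hls := farey_ls Q N a hQ
  rw [← hs, ← hK] at hls
  have hnorm : ∑ k ∈ range N, ‖a k‖ ^ 2 = ∑ n ∈ range N, ‖S n‖ ^ 2 :=
    Finset.sum_congr rfl fun n _ => by rw [ha]; simp only [RCLike.norm_conj]
  rw [hnorm] at hls
  set X : ℝ := ∑ n ∈ range N, ‖S n‖ ^ 2 with hX
  have hX0 : 0 ≤ X := Finset.sum_nonneg fun _ _ => by positivity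
  have hSs : ∀ n, S n = ∑ x ∈ s, c x.1 x.2 * ee x.2 x.1 n := by
    intro n
    rw [hS, hs, Finset.sum_sigma]
  have hC : ∑ q ∈ Icc 2 Q, ∑ r ∈ Rd q, ‖c q r‖ ^ 2 = ∑ x ∈ s, ‖c x.1 x.2‖ ^ 2 := by
    rw [hs, Finset.sum_sigma]
  rw [hC]
  have hXc : (X : ℂ) = ∑ x ∈ s, c x.1 x.2 * trig a N ((x.2 : ℝ) / (x.1 : ℝ)) := by
    have h1 : (X : ℂ) = ∑ n ∈ range N, a n * S n := by
      rw [hX]
      push_cast
      refine Finset.sum_congr rfl fun n _ => ?_
      rw [ha, ← Complex.conj_mul']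
    rw [h1]
    have h2 : ∀ n ∈ range N, a n * S n = ∑ x ∈ s, c x.1 x.2 * (a n * ee x.2 x.1 n) := by
      intro n _
      rw [hSs n, Finset.mul_sum]
      exact Finset.sum_congr rfl fun x _ => by ring
    rw [Finset.sum_congr rfl h2, Finset.sum_comm]
    refine Finset.sum_congr rfl fun x _ => ?_
    rw [← Finset.mul_sum]
    congr 1
    unfold trig
    refine Finset.sum_congr rfl fun n _ => ?_
    congr 1
    unfold ee
    congr 1
    push_cast
    ring
  have hX1 : X ≤ ∑ x ∈ s, ‖c x.1 x.2‖ * ‖trig a N ((x.2 : ℝ) / (x.1 : ℝ))‖ := by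
    have h1 : X = ‖(X : ℂ)‖ := by
      rw [Complex.norm_real, Real.norm_eq_abs, abs_of_nonneg hX0]
    rw [h1, hXc]
    refine (norm_sum_le _ _).trans (le_of_eq (Finset.sum_congr rfl fun x _ => norm_mul _ _))
  have hX2 : X ^ 2 ≤ (∑ x ∈ s, ‖c x.1 x.2‖ ^ 2) * (K * X) := by
    calc X ^ 2 ≤ (∑ x ∈ s, ‖c x.1 x.2‖ * ‖trig a N ((x.2 : ℝ) / (x.1 : ℝ))‖) ^ 2 :=
          pow_le_pow_left₀ hX0 hX1 2
      _ ≤ (∑ x ∈ s, ‖c x.1 x.2‖ ^ 2) *
          ∑ x ∈ s, ‖trig a N ((x.2 : ℝ) / (x.1 : ℝ))‖ ^ 2 :=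
          Finset.sum_mul_sq_le_sq_mul_sq _ _ _
      _ ≤ _ := mul_le_mul_of_nonneg_left hls (Finset.sum_nonneg fun _ _ => by positivity)
  have hC0 : 0 ≤ ∑ x ∈ s, ‖c x.1 x.2‖ ^ 2 := Finset.sum_nonneg fun _ _ => by positivity
  rcases hX0.eq_or_lt with h0 | h0
  · rw [← h0]; positivity
  · have h3 : X * X ≤ (K * ∑ x ∈ s, ‖c x.1 x.2‖ ^ 2) * X := by
      calc X * X = X ^ 2 := by ring
        _ ≤ _ := hX2
        _ = _ := by ring
    exact le_of_mul_le_mul_right h3 h0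

end Pool.Agent.H14.APR
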